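import Pool.Agent.KS6_93.XMain
import Pool.Agent.KS6_93.CSAF

/-!
# The knots `C(2, 2, …, 2, 2)`: complex volume and expansion
-/

set_option autoImplicit false

namespace Pool.Agent.KS6_93.XPell

open Finset Filter Topology MeasureTheory
open Pool.Agent.Q99.KN (bb LC Gm ct St)
open Pool.Agent.W719.BS (LL)
open Pool.Agent.KS6_93.VC Pool.Agent.KS6_93.VH
open Pool.Agent.R807.Expand (Expansion)
open Pool.Agent.Results.MP_759431_gt.PalindromicTwoBridge (kashaev twoBridge anti OneComponent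
  IsOrientation)
open Pool.Agent.KS6_93.XPX (vv)
open Pool.Agent.KS6_93.CHL (LS LS_const)

lemma QL_const (a n : ℕ) (hn : 1 ≤ n) (w : ℕ → ℂ) : CHL.QL (fun _ => a) n w = QQ a n w := by
  have h1 : ∀ i ∈ range n, (-1 : ℂ) ^ i * (w i * w (i + 1) - ((a : ℂ) - 1) * (CHL.sq (w i) + CHL.sq (w (i + 1)))) =
      (-1) ^ i * (w i * w (i + 1)) - ((a : ℂ) - 1) * ((-1) ^ i * (CHL.sq (w i) + CHL.sq (w (i + 1)))) :=
    fun i _ => by ring
  have h2 : ∀ m : ℕ, ∑ i ∈ range m, (-1 : ℂ) ^ i * (CHL.sq (w i) + CHL.sq (w (i + 1))) =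
      CHL.sq (w 0) + (-1) ^ (m + 1) * CHL.sq (w m) := by
    intro m
    induction m with
    | zero => simp
    | succ m ih => rw [Finset.sum_range_succ, ih]; ring
  unfold CHL.QL QQ ee
  rw [Finset.sum_congr rfl h1, Finset.sum_sub_distrib, ← Finset.mul_sum, h2]
  unfold CHL.sq
  ring

lemma VL_const (a n : ℕ) (hn : 1 ≤ n) (w : ℕ → ℂ) : VL (fun _ => a) n w = VV a n w := by
  unfold VL VV
  rw [QL_const a n hn]

lemma crit_const {a n : ℕ} {w : ℕ → ℂ} (h : Crit a n w) : CritL (fun _ => a) n w := by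
  obtain ⟨h1, h2, h3⟩ := h
  refine ⟨h1, fun j hj => ?_, h3⟩
  have := h2 j hj
  linear_combination this

lemma okR_box {u u' : ℂ} (h : |u.re - 77 / 100| ≤ 4 / 100 ∧ |u.im| ≤ 8 / 100)
    (h' : |u'.re - 77 / 100| ≤ 4 / 100 ∧ |u'.im| ≤ 8 / 100) : OkR 2 u u' := by
  have hb : GF2.Bd u u' := GF2.Gd.bd h h'
  obtain ⟨⟨a1, a2⟩, ⟨a3, a4⟩, b0, b1, c⟩ := hb
  have hp := Real.pi_gt_d4
  have hp' := Real.pi_lt_d4
  have c0 := abs_le.2 b0
  have c1 := abs_le.2 b1
  have c2 := abs_le.2 c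
  have hd : |u.re - u'.re| ≤ 8 / 100 := by
    rw [abs_le]
    constructor <;> linarith
  have hd' : Real.pi * |u.re - u'.re| ≤ 3.1416 * (8 / 100) :=
    mul_le_mul hp'.le hd (abs_nonneg _) (by norm_num)
  refine ⟨⟨by linarith, by linarith⟩, ⟨by linarith, by linarith⟩, fun h => absurd h (by norm_num),
    fun _ => ?_, fun _ => ?_, fun _ => ?_⟩
  · linarith
  · linarith
  · nlinarith

/-- the classes -/
lemma cl_two {n : ℕ} : ∀ j ≤ n, CS.cl (LS (fun _ => 2) n) (2 * j) = (if Even j then 1 else 3) ∧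
    CS.cl (LS (fun _ => 2) n) (2 * j + 1) = 2 := by
  have hL : ∀ j, GL.Lp (fun _ => 2) j = 2 * j + 1 := by
    intro j
    unfold GL.Lp
    simp
    ring
  intro j
  induction j with
  | zero =>
    intro _
    refine ⟨?_, ?_⟩
    · rw [if_pos (by simp)]
      simp [CS.cl]
    · simp [CS.cl]
  | succ j ih =>
    intro hj
    obtain ⟨h1, h2⟩ := ih (by omega)
    have e1 : CS.cl (LS (fun _ => 2) n) (2 * (j + 1)) = if Even (j + 1) then 1 else 3 := by
      have hh : Hinge (LS (fun _ => 2) n) (2 * j + 1) := by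
        have := GL.hinge_node (α := fun _ => 2) (n := n) (j := j) (by omega)
        rwa [hL] at this
      rw [show 2 * (j + 1) = 2 * j + 2 by ring, CS.cl, if_pos hh, h1, h2]
      by_cases he : Even j
      · rw [if_pos he, if_neg (by rw [Nat.even_add_one]; simpa using he)]
        rfl
      · rw [if_neg he, if_pos (by rw [Nat.even_add_one]; exact he)]
        rfl
    refine ⟨e1, ?_⟩
    have hh : ¬ Hinge (LS (fun _ => 2) n) (2 * j + 1 + 1) := by
      have := GL.hinge_mid (α := fun _ => 2) (n := n) (j := j) rfl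
      rwa [hL] at this
    rw [show 2 * (j + 1) + 1 = (2 * j + 1) + 2 by ring, CS.cl, if_neg hh, h2]

lemma cl_last {n : ℕ} (he : Even n) :
    CS.cl (LS (fun _ => 2) n) ((LS (fun _ => 2) n).sum - 2) ≠ 1 := by
  have hL : GL.Lp (fun _ => 2) n = 2 * n + 1 := by
    unfold GL.Lp
    simp
    ring
  rw [GL.LS_sum, hL, show 2 * n + 1 + 3 - 2 = 2 * n + 2 by omega]
  obtain ⟨h1, h2⟩ := cl_two (n := n) n le_rfl
  have hh : Hinge (LS (fun _ => 2) n) (2 * n + 1) := by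
    have := GL.hinge_node (α := fun _ => 2) (n := n) (j := n) le_rfl
    rwa [hL] at this
  rw [CS.cl, if_pos hh, h1, h2, if_pos he]
  decide

/-- `C(2, 2, …, 2, 2)` -/
theorem pellX {n : ℕ} (hn : 4 ≤ n) : ∃ Vs : ℂ, n * (4 * LL (3 / 4)) + 237 / 1000 ≤ Vs.re ∧
    IsGreatest {W : ℝ | ∃ θ : ℕ → ℝ, IsAngle (lst 2 n) θ ∧ vol (lst 2 n) θ = W}
      (2 * Real.pi * Vs.re) ∧
    (Even n →
      CS.ComplexVolume (lst 2 n) (2 * Real.pi * Vs.re) (2 * Real.pi * Vs.im)) ∧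
    ∀ o : ℕ → List Bool, ∃ φ : ℕ → ℂ, φ 0 ≠ 0 ∧
      Expansion (kashaev (twoBridge (lst 2 n)) o) (vv 2 n o Vs) φ := by
  obtain ⟨z, hz, hl⟩ := SAD2.task_SAD2 n hn
  have hloc := LOC.loc2 (by omega) hl
  obtain ⟨rb1, rb2, rb3⟩ := RB2.task_RB2
  have hlow := LOW.low2 hn hz hl rb3
  have him : ∀ j ≤ n, |(z j).im| ≤ hY 2 := fun j hj => (hloc.1 j hj).2.2
  have hexp := XMain.expd (Or.inr rfl) (by omega) hz hloc.2 him
    (fun u hu => by have := rb1 n u (by omega) hu; linarith)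
    (fun u hu hj => by have := rb2 n u hn hu hj; linarith)
  have hbox : ∀ j ≤ n, |(z j).re - 77 / 100| ≤ 4 / 100 ∧ |(z j).im| ≤ 8 / 100 := by
    intro j hj
    obtain ⟨h1, h2⟩ := LOC.one_le (by norm_num) hl hj
    have h3 := LOC.im_le h2
    rw [LOC.rf_re, LOC.cf2_re, abs_le] at h1
    rw [LOC.rf_im, LOC.cf2_im] at h3
    rw [abs_le]
    split_ifs at h1 h3 <;> refine ⟨⟨by linarith, by linarith⟩, by linarith⟩
  refine ⟨VV 2 n z, hlow, ?_, fun he => ?_, hexp⟩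
  · obtain ⟨θ, h1, h2, h3⟩ := GF2.task_GF2 n z (by omega) hz hbox
    refine ⟨⟨θ, h1, h2⟩, ?_⟩
    rintro W ⟨θ', h4, rfl⟩
    rw [← h2]
    exact h3 θ' h4
  · have := CSAF.complexVolume (α := fun _ => 2) (n := n) (w := z) (by omega)
      (fun i _ => Or.inr rfl) (cl_last he) (crit_const hz)
      (fun i hi => okR_box (hbox i hi.le) (hbox (i + 1) hi))
    rwa [VL_const 2 n (by omega), LS_const] at this

end Pool.Agent.KS6_93.XPell
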